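import Mathlib

/-!
# Sums of powers over finite rings (not necessarily with identity)
-/

open Finset

namespace Q10.PowerSum

/-- `power a n` is the product of `n + 1` copies of `a`. -/
def power {T : Type*} [Mul T] (a : T) : ℕ → T
  | 0 => a
  | n + 1 => power a n * a

section Basic

variable {T T' : Type*} [NonUnitalRing T] [NonUnitalRing T']

theorem map_power (f : T →ₙ+* T') (a : T) (n : ℕ) : f (power a n) = power (f a) n := by
  induction n with
  | zero => rfl
  | succ n ih => rw [power, power, map_mul, ih]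

/-- The sum of the `(n+1)`-st powers of all the elements of a finite ring. -/
def PS (T : Type*) [NonUnitalRing T] [Fintype T] (n : ℕ) : T := ∑ a : T, power a n

theorem sum_comp_surj {G H M : Type*} [AddGroup G] [AddGroup H] [Fintype G] [Fintype H]
    [DecidableEq H] [AddCommMonoid M] (f : G →+ H) (hf : Function.Surjective f) (φ : H → M) :
    ∑ g, φ (f g) = #{g : G | f g = 0} • ∑ h, φ h := by
  rw [← Finset.sum_fiberwise (s := univ) (g := f), Finset.smul_sum]
  refine Finset.sum_congr rfl fun h _ => ?_
  rw [Finset.sum_congr rfl (g := fun _ => φ h) (by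
    intro x hx
    rw [(Finset.mem_filter.mp hx).2])]
  rw [Finset.sum_const]
  congr 1
  exact AddMonoidHom.card_fiber_eq_of_mem_range f (hf h) (hf 0)

theorem card_eq_mul {G H : Type*} [AddGroup G] [AddGroup H] [Fintype G] [Fintype H]
    [DecidableEq H] (f : G →+ H) (hf : Function.Surjective f) :
    Fintype.card G = #{g : G | f g = 0} * Fintype.card H := by
  have := sum_comp_surj f hf (fun _ => (1 : ℕ))
  simpa using this

theorem map_PS [Fintype T] [Fintype T'] [DecidableEq T'] (f : T →ₙ+* T')
    (hf : Function.Surjective f) (n : ℕ) :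
    f (PS T n) = #{g : T | f g = 0} • PS T' n := by
  unfold PS
  rw [map_sum]
  simp only [map_power]
  exact sum_comp_surj (f : T →+ T') hf (fun x => power x n)

theorem map_PS_of_bijective [Fintype T] [Fintype T'] (f : T →ₙ+* T')
    (hf : Function.Bijective f) (n : ℕ) : f (PS T n) = PS T' n := by
  unfold PS
  rw [map_sum]
  simp only [map_power]
  exact hf.sum_comp (fun x => power x n)

theorem map_PS_equiv [Fintype T] [Fintype T'] (f : T ≃+* T') (n : ℕ) : f (PS T n) = PS T' n :=
  map_PS_of_bijective (f : T →ₙ+* T') f.bijective n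

/-- The order of the kernel kills the kernel. -/
theorem card_ker_nsmul {G H : Type*} [AddGroup G] [AddGroup H] [Fintype G]
    [DecidableEq H] (f : G →+ H) {x : G} (hx : f x = 0) : #{g : G | f g = 0} • x = 0 := by
  classical
  have h1 : #{g : G | f g = 0} = Nat.card f.ker := by
    rw [Nat.card_eq_fintype_card, Fintype.card_subtype]
    congr 1
    ext y
    simp
  rw [h1]
  have h2 : Nat.card f.ker • (⟨x, hx⟩ : f.ker) = 0 := by
    rw [Nat.card_eq_fintype_card]
    exact card_nsmul_eq_zero
  simpa using congrArg Subtype.val h2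

/-- Linearisation of powers along a square-zero set. -/
theorem power_add (I : AddSubgroup T) (hl : ∀ x, ∀ y ∈ I, x * y ∈ I) (hr : ∀ x, ∀ y ∈ I, y * x ∈ I)
    (h0 : ∀ x ∈ I, ∀ y ∈ I, x * y = 0) (a : T) (n : ℕ) :
    ∃ L : T →+ T, (∀ b ∈ I, L b ∈ I) ∧ ∀ b ∈ I, power (b + a) n = power a n + L b := by
  induction n with
  | zero =>
    refine ⟨AddMonoidHom.id T, fun b hb => hb, fun b _ => ?_⟩
    simp only [power, AddMonoidHom.id_apply]
    abel
  | succ n ih =>
    obtain ⟨L, hL1, hL2⟩ := ih
    refine ⟨(AddMonoidHom.mulLeft (power a n)) + (AddMonoidHom.mulRight a).comp L, ?_, ?_⟩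
    · intro b hb
      simp only [AddMonoidHom.add_apply, AddMonoidHom.comp_apply, AddMonoidHom.coe_mulLeft,
        AddMonoidHom.coe_mulRight]
      exact I.add_mem (hl _ _ hb) (hr _ _ (hL1 b hb))
    · intro b hb
      simp only [AddMonoidHom.add_apply, AddMonoidHom.comp_apply, AddMonoidHom.coe_mulLeft,
        AddMonoidHom.coe_mulRight]
      rw [power, power, hL2 b hb, add_mul, mul_add, mul_add, h0 (L b) (hL1 b hb) b hb, zero_add]
      abel

/-- The sum of powers along a square-zero extension. -/
theorem PS_sqZero [Fintype T] [Fintype T'] [DecidableEq T'] (f : T →ₙ+* T')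
    (hf : Function.Surjective f) (h0 : ∀ x y, f x = 0 → f y = 0 → x * y = 0)
    (hsum : ∑ b ∈ {b : T | f b = 0}, b = 0) (n : ℕ) :
    ∃ X : T, f X = PS T' n ∧ PS T n = #{b : T | f b = 0} • X := by
  obtain ⟨s, hs⟩ := hf.hasRightInverse
  refine ⟨∑ c : T', power (s c) n, ?_, ?_⟩
  · rw [map_sum, PS]
    refine Finset.sum_congr rfl fun c _ => ?_
    rw [map_power, hs]
  · rw [PS, ← Finset.sum_fiberwise (s := univ) (g := f), Finset.smul_sum]
    refine Finset.sum_congr rfl fun c _ => ?_
    obtain ⟨L, -, hL⟩ := power_add ((f : T →+ T').ker)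
      (by
        intro x y hy
        have hy' : f y = 0 := hy
        change f (x * y) = 0
        rw [map_mul, hy', mul_zero])
      (by
        intro x y hy
        have hy' : f y = 0 := hy
        change f (y * x) = 0
        rw [map_mul, hy', zero_mul])
      (fun x hx y hy => h0 x y hx hy) (s c) n
    have h1 : ∑ a ∈ {a : T | f a = c}, power a n = ∑ b ∈ {b : T | f b = 0}, power (b + s c) n := by
      refine Finset.sum_nbij' (fun a => a - s c) (fun b => b + s c) ?_ ?_ ?_ ?_ ?_
      · intro a ha
        simp only [Finset.mem_filter, Finset.mem_univ, true_and] at ha ⊢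
        rw [map_sub, ha, hs, sub_self]
      · intro a ha
        simp only [Finset.mem_filter, Finset.mem_univ, true_and] at ha ⊢
        rw [_root_.map_add, ha, hs, zero_add]
      · intro a _
        simp
      · intro a _
        simp
      · intro a _
        simp
    rw [h1, Finset.sum_congr rfl (g := fun b => power (s c) n + L b) (by
      intro b hb
      exact hL b (Finset.mem_filter.mp hb).2), Finset.sum_add_distrib, Finset.sum_const,
      ← map_sum, hsum, _root_.map_zero, add_zero]

end Basic

/-- Sums over free actions. -/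
theorem sum_eq_zero_of_free {G X M : Type*} [AddGroup G] [Fintype G] [AddAction G X] [Fintype X]
    [AddCommMonoid M] (P : X → Prop) [DecidablePred P] (hP : ∀ (g : G) x, P x → P (g +ᵥ x))
    (hfree : ∀ (g : G) x, P x → g +ᵥ x = x → g = 0) (f : X → M)
    (hf : ∀ x, P x → ∑ g : G, f (g +ᵥ x) = 0) : ∑ x ∈ {x : X | P x}, f x = 0 := by
  classical
  obtain ⟨r, hr⟩ : ∃ r : X → X, r = fun x => (Quotient.mk (AddAction.orbitRel G X) x).out :=
    ⟨_, rfl⟩
  have h1 : ∀ x, ∃ g : G, g +ᵥ x = r x := by
    intro x
    have h : (AddAction.orbitRel G X) (r x) x := by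
      rw [hr]
      exact Quotient.mk_out x
    exact AddAction.orbitRel_apply.mp h
  have h2 : ∀ (g : G) x, r (g +ᵥ x) = r x := by
    intro g x
    rw [hr]
    have : (Quotient.mk (AddAction.orbitRel G X) (g +ᵥ x)) = Quotient.mk _ x := by
      apply Quotient.sound
      exact AddAction.orbitRel_apply.mpr ⟨g, rfl⟩
    simp only [this]
  have h3 : ∀ x, r (r x) = r x := by
    intro x
    obtain ⟨g, hg⟩ := h1 x
    rw [← hg, h2, hg]
  rw [← Finset.sum_fiberwise_of_maps_to (s := {x : X | P x}) (t := ({x : X | P x} : Finset X).image r)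
    (g := r) (fun x hx => Finset.mem_image_of_mem r hx)]
  refine Finset.sum_eq_zero fun y hy => ?_
  obtain ⟨x, hx, hxy⟩ := Finset.mem_image.mp hy
  have hxP : P x := (Finset.mem_filter.mp hx).2
  have hry : r y = y := by rw [← hxy, h3]
  have hyP : P y := by
    obtain ⟨g, hg⟩ := h1 x
    rw [← hxy, ← hg]
    exact hP g x hxP
  rw [← hf y hyP]
  symm
  refine Finset.sum_bij (fun g _ => g +ᵥ y) ?_ ?_ ?_ ?_
  · intro g _
    simp only [Finset.mem_filter, Finset.mem_univ, true_and]
    exact ⟨hP g y hyP, by rw [h2, hry]⟩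
  · intro g _ g' _ h
    have h4 : (-g' + g) +ᵥ y = y := by
      rw [add_vadd, h, neg_vadd_vadd]
    have h5 := hfree _ _ hyP h4
    exact (neg_add_eq_zero.mp h5).symm
  · intro z hz
    simp only [Finset.mem_filter, Finset.mem_univ, true_and] at hz
    obtain ⟨g, hg⟩ := h1 z
    refine ⟨-g, Finset.mem_univ _, ?_⟩
    rw [← hz.2, ← hg, neg_vadd_vadd]
  · intro g _
    rfl

end Q10.PowerSum
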