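import Mathlib
import Pool.Agent.Q10.PowerSum.Basic

/-!
# Sums of powers of matrices over a finite field
-/

open Finset Matrix

namespace Q10.PowerSum

theorem power_eq_pow {T : Type*} [Ring T] (a : T) (n : ℕ) : power a n = a ^ (n + 1) := by
  induction n with
  | zero => rw [power, zero_add, pow_one]
  | succ n ih => rw [power, ih, ← pow_succ]

section Field

variable {F : Type*} [Field F] {ι : Type*} [Fintype ι] [DecidableEq ι]

/-- The matrix with `i₀`-th row given by `l` off the diagonal, all other entries being zero. -/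
def rowMat (i₀ : ι) (l : {j // j ≠ i₀} → F) : Matrix ι ι F :=
  Matrix.of fun i j => if h : j ≠ i₀ then (if i = i₀ then l ⟨j, h⟩ else 0) else 0

theorem rowMat_add (i₀ : ι) (l l' : {j // j ≠ i₀} → F) :
    rowMat i₀ (l + l') = rowMat i₀ l + rowMat i₀ l' := by
  ext i j
  simp only [rowMat, Matrix.of_apply, Matrix.add_apply]
  split_ifs <;> simp

theorem rowMat_zero (i₀ : ι) : rowMat i₀ (0 : {j // j ≠ i₀} → F) = 0 := by
  ext i j
  simp only [rowMat, Matrix.of_apply, Matrix.zero_apply]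
  split_ifs <;> simp

theorem rowMat_mul (i₀ : ι) (l l' : {j // j ≠ i₀} → F) : rowMat i₀ l * rowMat i₀ l' = 0 := by
  ext i j
  simp only [rowMat, Matrix.mul_apply, Matrix.of_apply, Matrix.zero_apply]
  refine Finset.sum_eq_zero fun x _ => ?_
  split_ifs <;> simp_all

/-- The action of row vectors on matrices, by conjugation with transvections. -/
def rowAct (i₀ : ι) (l : {j // j ≠ i₀} → F) (A : Matrix ι ι F) : Matrix ι ι F :=
  (1 + rowMat i₀ l) * A * (1 - rowMat i₀ l)

/-- The additive action. -/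
@[reducible] def rowAction (i₀ : ι) : AddAction ({j // j ≠ i₀} → F) (Matrix ι ι F) where
  vadd l A := rowAct i₀ l A
  zero_vadd A := by
    change rowAct i₀ 0 A = A
    simp [rowAct, rowMat_zero]
  add_vadd l l' A := by
    change rowAct i₀ (l + l') A = rowAct i₀ l (rowAct i₀ l' A)
    unfold rowAct
    have h1 : (1 + rowMat i₀ (l + l') : Matrix ι ι F) = (1 + rowMat i₀ l) * (1 + rowMat i₀ l') := by
      rw [rowMat_add]
      simp only [mul_add, add_mul, mul_one, one_mul, rowMat_mul, add_zero]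
      abel
    have h2 : (1 - rowMat i₀ (l + l') : Matrix ι ι F) = (1 - rowMat i₀ l') * (1 - rowMat i₀ l) := by
      rw [rowMat_add]
      simp only [mul_sub, sub_mul, mul_one, one_mul, rowMat_mul]
      abel
    rw [h1, h2]
    simp only [mul_assoc]

theorem one_add_mul_one_sub (i₀ : ι) (l : {j // j ≠ i₀} → F) :
    (1 + rowMat i₀ l) * (1 - rowMat i₀ l) = 1 := by
  simp only [mul_sub, add_mul, mul_one, one_mul, rowMat_mul]
  abel

theorem one_sub_mul_one_add (i₀ : ι) (l : {j // j ≠ i₀} → F) :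
    (1 - rowMat i₀ l) * (1 + rowMat i₀ l) = 1 := by
  simp only [mul_add, sub_mul, mul_one, one_mul, rowMat_mul]
  abel

theorem rowAct_pow (i₀ : ι) (l : {j // j ≠ i₀} → F) (A : Matrix ι ι F) (n : ℕ) :
    rowAct i₀ l A ^ n = rowAct i₀ l (A ^ n) := by
  induction n with
  | zero => simp [rowAct, one_add_mul_one_sub]
  | succ n ih =>
    rw [pow_succ, ih, pow_succ]
    unfold rowAct
    calc (1 + rowMat i₀ l) * A ^ n * (1 - rowMat i₀ l) * ((1 + rowMat i₀ l) * A * (1 - rowMat i₀ l))
        = (1 + rowMat i₀ l) * A ^ n * ((1 - rowMat i₀ l) * (1 + rowMat i₀ l)) * A *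
          (1 - rowMat i₀ l) := by simp only [mul_assoc]
      _ = (1 + rowMat i₀ l) * (A ^ n * A) * (1 - rowMat i₀ l) := by
          rw [one_sub_mul_one_add]
          simp only [mul_assoc, one_mul]

theorem rowMat_mulVec (i₀ : ι) (l : {j // j ≠ i₀} → F) (w : ι → F) :
    rowMat i₀ l *ᵥ w = (∑ j : {j // j ≠ i₀}, l j * w j) • (Pi.single i₀ 1 : ι → F) := by
  ext i
  simp only [rowMat, Matrix.mulVec, dotProduct, Matrix.of_apply, Pi.smul_apply, Pi.single_apply,
    smul_eq_mul, mul_ite, mul_one, mul_zero]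
  by_cases hi : i = i₀
  · simp only [hi, if_true]
    rw [← Fintype.sum_subtype_add_sum_subtype (fun j => j ≠ i₀)]
    have h2 : ∑ i : {x // ¬ x ≠ i₀}, (if h : (i : ι) ≠ i₀ then l ⟨i, h⟩ else 0) * w i = 0 := by
      refine Finset.sum_eq_zero fun x _ => ?_
      rw [dif_neg x.2, zero_mul]
    rw [h2, add_zero]
    refine Finset.sum_congr rfl fun x _ => ?_
    rw [dif_pos x.2]
  · simp [hi]

theorem rowMat_mulVec_single (i₀ : ι) (l : {j // j ≠ i₀} → F) :
    rowMat i₀ l *ᵥ (Pi.single i₀ 1 : ι → F) = 0 := by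
  rw [rowMat_mulVec]
  have : ∑ j : {j // j ≠ i₀}, l j * (Pi.single i₀ 1 : ι → F) j = 0 := by
    refine Finset.sum_eq_zero fun x _ => ?_
    rw [Pi.single_eq_of_ne x.2, mul_zero]
  rw [this, zero_smul]

theorem rowAct_mulVec_single (i₀ : ι) (l : {j // j ≠ i₀} → F) (A : Matrix ι ι F) :
    rowAct i₀ l A *ᵥ (Pi.single i₀ 1 : ι → F) =
      A *ᵥ (Pi.single i₀ 1 : ι → F) +
        (∑ j : {j // j ≠ i₀}, l j * (A *ᵥ (Pi.single i₀ 1 : ι → F)) j) •
          (Pi.single i₀ 1 : ι → F) := by
  unfold rowAct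
  rw [← Matrix.mulVec_mulVec, Matrix.sub_mulVec, rowMat_mulVec_single, Matrix.one_mulVec, sub_zero,
    ← Matrix.mulVec_mulVec, Matrix.add_mulVec, Matrix.one_mulVec, rowMat_mulVec]

theorem pow_mulVec_of_eigen {A : Matrix ι ι F} {v : ι → F} {c : F} (h : A *ᵥ v = c • v) (n : ℕ) :
    (A ^ n) *ᵥ v = c ^ n • v := by
  induction n with
  | zero => simp
  | succ n ih =>
    rw [pow_succ, ← Matrix.mulVec_mulVec, h, Matrix.mulVec_smul, ih, smul_smul, pow_succ', mul_comm]

variable [Fintype F]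

theorem sum_field_ne (i₀ i₁ : ι) (hne : i₁ ≠ i₀)
    (hq : 2 < Fintype.card F ∨ 2 < Fintype.card ι) (n : ℕ) :
    (∑ A : Matrix ι ι F, (A ^ (n + 1)) *ᵥ (Pi.single i₀ 1 : ι → F)) = 0 := by
  classical
  obtain ⟨v, hv⟩ : ∃ v : ι → F, v = Pi.single i₀ 1 := ⟨_, rfl⟩
  rw [← hv]
  have hv0 : v ≠ 0 := by
    intro h
    have := congrFun h i₀
    rw [hv] at this
    simp at this
  have hqF : (Fintype.card F : F) = 0 := FiniteField.cast_card_eq_zero F
  rw [← Finset.sum_filter_add_sum_filter_not univ (fun A : Matrix ι ι F => ∃ c : F, A *ᵥ v = c • v)]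
  have h1 : ∑ A ∈ {A : Matrix ι ι F | ∃ c : F, A *ᵥ v = c • v}, (A ^ (n + 1)) *ᵥ v = 0 := by
    letI : AddAction F (Matrix ι ι F) :=
      { vadd := fun t A => Matrix.single i₁ i₁ t + A
        zero_vadd := fun A => by
          change Matrix.single i₁ i₁ (0 : F) + A = A
          simp
        add_vadd := fun s t A => by
          change Matrix.single i₁ i₁ (s + t) + A = Matrix.single i₁ i₁ s + (Matrix.single i₁ i₁ t + A)
          rw [Matrix.single_add, add_assoc] }
    have hvadd : ∀ (t : F) (A : Matrix ι ι F), t +ᵥ A = Matrix.single i₁ i₁ t + A :=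
      fun _ _ => rfl
    have hmul : ∀ (t : F) (A : Matrix ι ι F), (t +ᵥ A) *ᵥ v = A *ᵥ v := by
      intro t A
      rw [hvadd, Matrix.add_mulVec, hv]
      have : (Matrix.single i₁ i₁ t : Matrix ι ι F) *ᵥ (Pi.single i₀ 1 : ι → F) = 0 := by
        ext i
        rw [Matrix.mulVec_single_one, Matrix.col_apply, Matrix.single_apply_of_col_ne]
        · rfl
        · exact hne
      rw [this, zero_add]
    refine sum_eq_zero_of_free (G := F) (fun A : Matrix ι ι F => ∃ c : F, A *ᵥ v = c • v) ?_ ?_ _ ?_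
    · rintro t A ⟨c, hc⟩
      exact ⟨c, by rw [hmul, hc]⟩
    · intro t A _ h
      rw [hvadd, add_eq_right] at h
      have := congrFun (congrFun h i₁) i₁
      simpa using this
    · rintro A ⟨c, hc⟩
      have : ∀ t : F, ((t +ᵥ A) ^ (n + 1)) *ᵥ v = c ^ (n + 1) • v := by
        intro t
        exact pow_mulVec_of_eigen (by rw [hmul, hc]) _
      simp only [this]
      rw [Finset.sum_const, Finset.card_univ, ← Nat.cast_smul_eq_nsmul F, hqF, zero_smul]
  rw [h1, zero_add]
  letI : AddAction ({j // j ≠ i₀} → F) (Matrix ι ι F) := rowAction i₀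
  have hvadd : ∀ (l : {j // j ≠ i₀} → F) (A : Matrix ι ι F), l +ᵥ A = rowAct i₀ l A :=
    fun _ _ => rfl
  refine sum_eq_zero_of_free (G := {j // j ≠ i₀} → F)
    (fun A : Matrix ι ι F => ¬ ∃ c : F, A *ᵥ v = c • v) ?_ ?_ _ ?_
  · rintro l A hA ⟨c, hc⟩
    apply hA
    rw [hvadd, hv, rowAct_mulVec_single, ← hv] at hc
    exact ⟨_, by rw [sub_smul]; exact eq_sub_of_add_eq hc⟩
  · rintro l A hA h
    rw [hvadd] at h
    by_contra hl
    apply hA
    obtain ⟨j, hj⟩ := Function.ne_iff.mp hl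
    have h3 : (1 + rowMat i₀ l) * A = A * (1 + rowMat i₀ l) := by
      calc (1 + rowMat i₀ l) * A = (1 + rowMat i₀ l) * A * ((1 - rowMat i₀ l) * (1 + rowMat i₀ l)) := by
            rw [one_sub_mul_one_add, mul_one]
        _ = rowAct i₀ l A * (1 + rowMat i₀ l) := by
            unfold rowAct
            simp only [mul_assoc]
        _ = A * (1 + rowMat i₀ l) := by rw [h]
    have h4 : rowMat i₀ l * A = A * rowMat i₀ l := by
      rw [add_mul, mul_add, one_mul, mul_one] at h3
      exact add_left_cancel h3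
    have h5 := congrArg (fun M : Matrix ι ι F => M *ᵥ (Pi.single (j : ι) 1 : ι → F)) h4
    simp only [← Matrix.mulVec_mulVec, rowMat_mulVec, Matrix.mulVec_smul] at h5
    have h6 : ∑ x : {j // j ≠ i₀}, l x * (Pi.single (j : ι) 1 : ι → F) x = l j := by
      rw [Finset.sum_eq_single j]
      · simp
      · intro b _ hb
        rw [Pi.single_eq_of_ne (fun h => hb (Subtype.ext h)), mul_zero]
      · intro h
        exact absurd (Finset.mem_univ _) h
    rw [h6, ← hv] at h5
    refine ⟨(l j)⁻¹ * (∑ x : {j // j ≠ i₀}, l x * (A *ᵥ (Pi.single (j : ι) 1 : ι → F)) x), ?_⟩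
    rw [mul_smul, h5, smul_smul, inv_mul_cancel₀ hj, one_smul]
  · intro A _
    obtain ⟨w, hw⟩ : ∃ w, w = (A ^ (n + 1)) *ᵥ v := ⟨_, rfl⟩
    have h7 : ∀ l : {j // j ≠ i₀} → F, ((l +ᵥ A) ^ (n + 1)) *ᵥ v =
        w + (∑ j : {j // j ≠ i₀}, l j * w j) • v := by
      intro l
      rw [hvadd, rowAct_pow, hv, rowAct_mulVec_single, ← hv, ← hw]
    simp only [h7]
    rw [Finset.sum_add_distrib, Finset.sum_const, Finset.card_univ, ← Finset.sum_smul,
      Finset.sum_comm]
    have hcard1 : Fintype.card {j // j ≠ i₀} = Fintype.card ι - 1 := by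
      rw [Fintype.card_subtype_compl, Fintype.card_subtype_eq]
    have hcι : 1 < Fintype.card ι := Fintype.one_lt_card_iff.mpr ⟨i₁, i₀, hne⟩
    have h8 : (Fintype.card ({j // j ≠ i₀} → F) : F) = 0 := by
      rw [Fintype.card_fun, Nat.cast_pow, hqF, zero_pow]
      rw [hcard1]
      omega
    rw [← Nat.cast_smul_eq_nsmul F, h8, zero_smul, zero_add]
    have h9 : ∀ j : {j // j ≠ i₀}, ∑ l : {j // j ≠ i₀} → F, l j * w j = 0 := by
      intro j
      rw [← Finset.sum_mul]
      have h10 : Function.Surjective (Pi.evalAddMonoidHom (fun _ : {j // j ≠ i₀} => F) j) := by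
        intro x
        exact ⟨fun _ => x, rfl⟩
      have h11 := sum_comp_surj (Pi.evalAddMonoidHom (fun _ : {j // j ≠ i₀} => F) j) h10
        (fun x => x)
      have h12 := card_eq_mul (Pi.evalAddMonoidHom (fun _ : {j // j ≠ i₀} => F) j) h10
      simp only [Pi.evalAddMonoidHom_apply] at h11 h12
      rw [h11]
      rcases hq with hq | hq
      · have h13 : ∑ x : F, x = 0 := by
          have := FiniteField.sum_pow_lt_card_sub_one F 1 (by omega)
          simpa using this
        rw [h13, smul_zero, zero_mul]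
      · obtain ⟨c, hc⟩ : ∃ c, c = #{g : {j // j ≠ i₀} → F | g j = 0} := ⟨_, rfl⟩
        rw [← hc] at h12 ⊢
        obtain ⟨m, hm⟩ : ∃ m, Fintype.card ι - 1 = m + 2 := ⟨Fintype.card ι - 3, by omega⟩
        rw [Fintype.card_fun, hcard1, hm, pow_succ] at h12
        have h14 := Nat.eq_of_mul_eq_mul_right Fintype.card_pos h12
        rw [← Nat.cast_smul_eq_nsmul F, ← h14, Nat.cast_pow, hqF, zero_pow (by omega), zero_smul,
          zero_mul]
    rw [Finset.sum_eq_zero (fun j _ => h9 j), zero_smul]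

/-- The sum of the `(n+1)`-st powers of all the square matrices over a finite field. -/
theorem PS_field (hι : 1 < Fintype.card ι)
    (hq : 2 < Fintype.card F ∨ 2 < Fintype.card ι) (n : ℕ) :
    PS (Matrix ι ι F) n = 0 := by
  ext i j
  obtain ⟨i₁, hi₁⟩ := Fintype.exists_ne_of_one_lt_card hι j
  have h := sum_field_ne (F := F) j i₁ hi₁ hq n
  rw [← Matrix.sum_mulVec] at h
  have h2 : PS (Matrix ι ι F) n = ∑ A : Matrix ι ι F, A ^ (n + 1) := by
    unfold PS
    simp only [power_eq_pow]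
  rw [h2]
  have h3 := congrFun h i
  rw [Matrix.mulVec_single_one, Matrix.col_apply] at h3
  exact h3

end Field

end Q10.PowerSum
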