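import Mathlib
import Pool.Agent.Q10.PowerSum.Field

/-!
# Sums of powers of matrices over finite rings
-/

open Finset Matrix

namespace Q10.PowerSum

section MatrixMap

variable {R R' : Type*} [NonUnitalRing R] [NonUnitalRing R'] {ι : Type*} [Fintype ι]

/-- Entrywise application of a homomorphism. -/
def mapM (ι : Type*) [Fintype ι] (f : R →ₙ+* R') : Matrix ι ι R →ₙ+* Matrix ι ι R' where
  toFun A := A.map f
  map_mul' A B := by
    ext i j
    simp [Matrix.mul_apply]
  map_zero' := by
    ext i j
    simp
  map_add' A B := by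
    ext i j
    simp

theorem mapM_apply (f : R →ₙ+* R') (A : Matrix ι ι R) (i j : ι) : mapM ι f A i j = f (A i j) := rfl

theorem mapM_surjective {f : R →ₙ+* R'} (hf : Function.Surjective f) :
    Function.Surjective (mapM ι f) := by
  intro B
  obtain ⟨s, hs⟩ := hf.hasRightInverse
  refine ⟨B.map s, ?_⟩
  ext i j
  rw [mapM_apply, Matrix.map_apply, hs]

theorem mapM_injective {f : R →ₙ+* R'} (hf : Function.Injective f) :
    Function.Injective (mapM ι f) := by
  intro A B h
  ext i j
  apply hf
  exact congrFun (congrFun h i) j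

variable [DecidableEq ι]

theorem card_ker_mapM [Fintype R] [DecidableEq R'] (f : R →ₙ+* R') :
    #{A : Matrix ι ι R | mapM ι f A = 0} =
      (#{x : R | f x = 0} ^ Fintype.card ι) ^ Fintype.card ι := by
  classical
  have h : #{A : Matrix ι ι R | mapM ι f A = 0} =
      #(Fintype.piFinset fun _ : ι => Fintype.piFinset fun _ : ι => ({x : R | f x = 0} : Finset R))
      := by
    refine Finset.card_bij (fun A _ => fun i j => A i j) ?_ ?_ ?_
    · intro A hA
      simp only [Fintype.mem_piFinset, Finset.mem_filter, Finset.mem_univ, true_and] at hA ⊢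
      intro i j
      exact congrFun (congrFun hA i) j
    · intro A _ B _ h
      exact h
    · intro A hA
      refine ⟨Matrix.of A, ?_, rfl⟩
      simp only [Fintype.mem_piFinset, Finset.mem_filter, Finset.mem_univ, true_and] at hA ⊢
      ext i j
      exact hA i j
  rw [h, Fintype.card_piFinset, Finset.prod_const, Fintype.card_piFinset, Finset.prod_const,
    Finset.card_univ]

theorem sum_ker_mapM [Fintype R] [DecidableEq R'] (f : R →ₙ+* R') (hι : 1 < Fintype.card ι) :
    ∑ A ∈ {A : Matrix ι ι R | mapM ι f A = 0}, A = 0 := by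
  classical
  ext i' j
  obtain ⟨i, hi⟩ := Fintype.exists_ne_of_one_lt_card hι i'
  rw [Matrix.sum_apply, Matrix.zero_apply]
  have h1 : ∑ A ∈ {A : Matrix ι ι R | mapM ι f A = 0}, A i j =
      ∑ A ∈ {A : Matrix ι ι R | mapM ι f A = 0}, (A i j + A i' j) := by
    symm
    refine Finset.sum_nbij' (fun A => Matrix.of fun a c => if a = i then A i c + A i' c else A a c)
      (fun A => Matrix.of fun a c => if a = i then A i c - A i' c else A a c) ?_ ?_ ?_ ?_ ?_
    · intro A hA
      simp only [Finset.mem_filter, Finset.mem_univ, true_and] at hA ⊢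
      have hA' : ∀ a c, f (A a c) = 0 := fun a c => congrFun (congrFun hA a) c
      ext a c
      rw [mapM_apply, Matrix.of_apply, Matrix.zero_apply]
      split_ifs
      · rw [_root_.map_add, hA', hA', add_zero]
      · rw [hA']
    · intro A hA
      simp only [Finset.mem_filter, Finset.mem_univ, true_and] at hA ⊢
      have hA' : ∀ a c, f (A a c) = 0 := fun a c => congrFun (congrFun hA a) c
      ext a c
      rw [mapM_apply, Matrix.of_apply, Matrix.zero_apply]
      split_ifs
      · rw [map_sub, hA', hA', sub_zero]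
      · rw [hA']
    · intro A _
      ext a c
      simp only [Matrix.of_apply, if_true, if_neg hi.symm]
      split_ifs with h
      · rw [h]
        simp
      · rfl
    · intro A _
      ext a c
      simp only [Matrix.of_apply, if_true, if_neg hi.symm]
      split_ifs with h
      · rw [h]
        simp
      · rfl
    · intro A _
      simp
  rw [Finset.sum_add_distrib] at h1
  exact (left_eq_add.mp h1)

theorem sum_matrix [Fintype R] (hι : 1 < Fintype.card ι) : ∑ A : Matrix ι ι R, A = 0 := by
  classical
  have := sum_ker_mapM (ι := ι) (0 : R →ₙ+* R) hι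
  rw [Finset.filter_true_of_mem] at this
  · exact this
  · intro A _
    ext i j
    rfl

/-- The statement about the sum of powers. -/
def Good (ι R : Type*) [Fintype ι] [DecidableEq ι] [NonUnitalRing R] [Fintype R] (n : ℕ) : Prop :=
  (Fintype.card R % 4 ≠ 2 → PS (Matrix ι ι R) n = 0) ∧
    (Fintype.card R % 4 = 2 → 2 • PS (Matrix ι ι R) n = 0)

theorem quot_step [Fintype R] [Fintype R'] {f : R →ₙ+* R'} (hf : Function.Surjective f)
    (hι : 1 < Fintype.card ι) (hR : Fintype.card R % 4 ≠ 2) {n : ℕ} (ih : Good ι R' n) (i j : ι) :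
    f (PS (Matrix ι ι R) n i j) = 0 := by
  classical
  have h1 := map_PS (mapM ι f) (mapM_surjective hf) n
  rw [card_ker_mapM] at h1
  have h2 := card_eq_mul (f : R →+ R') hf
  have h3 : (#{x : R | f x = 0} ^ Fintype.card ι) ^ Fintype.card ι • PS (Matrix ι ι R') n = 0 := by
    by_cases hR' : Fintype.card R' % 4 = 2
    · have h4 := ih.2 hR'
      obtain ⟨c, hc⟩ : ∃ c, c = #{x : R | f x = 0} := ⟨_, rfl⟩
      have h2' : Fintype.card R = c * Fintype.card R' := by
        rw [hc]
        exact h2
      rw [← hc]
      have h5 : 2 ∣ c := by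
        rw [h2'] at hR
        by_contra h6
        apply hR
        have h7 : c % 2 = 1 := by omega
        obtain ⟨a, ha⟩ : ∃ a, c = 2 * a + 1 := ⟨c / 2, by omega⟩
        obtain ⟨b, hb⟩ : ∃ b, Fintype.card R' = 4 * b + 2 := ⟨Fintype.card R' / 4, by omega⟩
        rw [ha, hb]
        have : (2 * a + 1) * (4 * b + 2) = 4 * (2 * a * b + a + b) + 2 := by ring
        omega
      obtain ⟨t, ht⟩ : 2 ∣ (c ^ Fintype.card ι) ^ Fintype.card ι :=
        dvd_pow (dvd_pow h5 (by omega)) (by omega)
      rw [ht, mul_comm, mul_smul, h4, smul_zero]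
    · rw [ih.1 hR', smul_zero]
  rw [h3] at h1
  exact congrFun (congrFun h1 i) j

theorem sqZero_step [Fintype R] [Fintype R'] {f : R →ₙ+* R'} (hf : Function.Surjective f)
    (hι : 1 < Fintype.card ι) (hR : Fintype.card R % 4 ≠ 2) {n : ℕ} (ih : Good ι R' n)
    (h0 : ∀ x y, f x = 0 → f y = 0 → x * y = 0) : PS (Matrix ι ι R) n = 0 := by
  classical
  have h1 := PS_sqZero (mapM ι f) (mapM_surjective hf) (by
    intro x y hx hy
    ext i j
    rw [Matrix.mul_apply, Matrix.zero_apply]
    refine Finset.sum_eq_zero fun k _ => h0 _ _ ?_ ?_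
    · exact congrFun (congrFun hx i) k
    · exact congrFun (congrFun hy k) j) (sum_ker_mapM f hι) n
  rw [card_ker_mapM] at h1
  obtain ⟨X, hX1, hX2⟩ := h1
  have h2 := card_eq_mul (f : R →+ R') hf
  have hkey : ∀ x, f x = 0 → #{g : R | f g = 0} • x = 0 := by
    intro x hx
    exact card_ker_nsmul (f : R →+ R') hx
  obtain ⟨c, hc⟩ : ∃ c, c = #{x : R | f x = 0} := ⟨_, rfl⟩
  have h2' : Fintype.card R = c * Fintype.card R' := by
    rw [hc]
    exact h2
  rw [← hc] at hkey hX2
  rw [hX2]
  by_cases hR' : Fintype.card R' % 4 = 2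
  · have h4 := ih.2 hR'
    have h5 : 2 ∣ c := by
      rw [h2'] at hR
      by_contra h6
      apply hR
      have h7 : c % 2 = 1 := by omega
      obtain ⟨a, ha⟩ : ∃ a, c = 2 * a + 1 := ⟨c / 2, by omega⟩
      obtain ⟨b, hb⟩ : ∃ b, Fintype.card R' = 4 * b + 2 := ⟨Fintype.card R' / 4, by omega⟩
      rw [ha, hb]
      have : (2 * a + 1) * (4 * b + 2) = 4 * (2 * a * b + a + b) + 2 := by ring
      omega
    have h8 : mapM ι f (2 • X) = 0 := by
      rw [map_nsmul, hX1, h4]
    have h9 : (c * 2) • X = 0 := by
      ext i j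
      rw [mul_smul, Matrix.smul_apply, Matrix.zero_apply]
      exact hkey _ (congrFun (congrFun h8 i) j)
    have h10 : c * 2 ∣ (c ^ Fintype.card ι) ^ Fintype.card ι := by
      have h11 : c * 2 ∣ c ^ 2 := by
        rw [pow_two]
        exact Nat.mul_dvd_mul_left c h5
      refine h11.trans ((pow_dvd_pow c (by omega)).trans (dvd_pow_self _ (by omega)))
    obtain ⟨t, ht⟩ := h10
    rw [ht, mul_comm, mul_smul, h9, smul_zero]
  · have h4 := ih.1 hR'
    rw [h4] at hX1
    have h9 : c • X = 0 := by
      ext i j
      rw [Matrix.smul_apply, Matrix.zero_apply]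
      exact hkey _ (congrFun (congrFun hX1 i) j)
    obtain ⟨t, ht⟩ : c ∣ (c ^ Fintype.card ι) ^ Fintype.card ι :=
      (dvd_pow_self c (by omega)).trans (dvd_pow_self _ (by omega))
    rw [ht, mul_comm, mul_smul, h9, smul_zero]

end MatrixMap

section Symmetry

variable {R : Type*} [NonUnitalRing R] [Fintype R] {ι : Type*} [Fintype ι] [DecidableEq ι]

/-- Conjugation by `1 + E` with `E² = 0`. -/
def conjHom (E : Matrix ι ι R) (hE : E * E = 0) : Matrix ι ι R →ₙ+* Matrix ι ι R where
  toFun A := A + E * A - A * E - E * A * E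
  map_mul' A B := by
    have h1 : ∀ x, E * (E * x) = 0 := by
      intro x
      rw [← mul_assoc, hE, zero_mul]
    simp only [mul_add, add_mul, mul_sub, sub_mul, mul_assoc, h1, mul_zero]
    abel
  map_zero' := by simp
  map_add' A B := by
    simp only [mul_add, add_mul]
    abel

theorem conjHom_bijective (E : Matrix ι ι R) (hE : E * E = 0) :
    Function.Bijective (conjHom E hE) := by
  have h1 : ∀ x, E * (E * x) = 0 := by
    intro x
    rw [← mul_assoc, hE, zero_mul]
  rw [← Finite.injective_iff_bijective]
  have hE' : (-E) * (-E) = 0 := by rw [neg_mul_neg, hE]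
  refine Function.LeftInverse.injective (g := conjHom (-E) hE') ?_
  intro A
  change (A + E * A - A * E - E * A * E) + (-E) * (A + E * A - A * E - E * A * E)
    - (A + E * A - A * E - E * A * E) * (-E) - (-E) * (A + E * A - A * E - E * A * E) * (-E) = A
  simp only [mul_add, add_mul, mul_sub, sub_mul, mul_assoc, h1, mul_zero, hE, neg_mul, mul_neg]
  abel

theorem comm_single (i j : ι) (hij : i ≠ j) (r : R) (n : ℕ) :
    Matrix.single i j r * PS (Matrix ι ι R) n = PS (Matrix ι ι R) n * Matrix.single i j r := by
  obtain ⟨E, hE⟩ : ∃ E, E = Matrix.single i j r := ⟨_, rfl⟩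
  have hEE : E * E = 0 := by
    rw [hE]
    exact Matrix.single_mul_single_of_ne _ _ _ _ hij.symm _
  rw [← hE]
  obtain ⟨S, hS⟩ : ∃ S, S = PS (Matrix ι ι R) n := ⟨_, rfl⟩
  rw [← hS]
  have h1 : S + E * S - S * E - E * S * E = S := by
    have := map_PS_of_bijective (conjHom E hEE) (conjHom_bijective E hEE) n
    rw [← hS] at this
    exact this
  have h2 : E * S - S * E - E * S * E = 0 := by
    have h3 : S + (E * S - S * E - E * S * E) = S + E * S - S * E - E * S * E := by abel
    exact add_eq_left.mp (h3.trans h1)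
  have h4 : E * S * E = 0 := by
    have h5 : E * (E * S - S * E - E * S * E) = E * E * S - E * S * E - E * E * S * E := by
      simp only [mul_sub, mul_assoc]
    rw [h2, hEE, mul_zero, zero_mul, zero_mul, zero_sub, sub_zero] at h5
    exact neg_eq_zero.mp h5.symm
  rw [h4, sub_zero] at h2
  exact sub_eq_zero.mp h2

theorem PS_submatrix (σ : Equiv.Perm ι) (n : ℕ) :
    (PS (Matrix ι ι R) n).submatrix σ σ = PS (Matrix ι ι R) n := by
  let φ : Matrix ι ι R →ₙ+* Matrix ι ι R :=
    { toFun := fun A => A.submatrix σ σ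
      map_mul' := fun A B => (Matrix.submatrix_mul_equiv A B σ σ σ).symm
      map_zero' := rfl
      map_add' := fun A B => rfl }
  have hφ : Function.Bijective φ := by
    rw [← Finite.injective_iff_bijective]
    intro A B h
    ext i j
    have : A.submatrix σ σ (σ.symm i) (σ.symm j) = B.submatrix σ σ (σ.symm i) (σ.symm j) :=
      congrFun (congrFun h (σ.symm i)) (σ.symm j)
    simpa using this
  exact map_PS_of_bijective φ hφ n

/-- The sum of powers is symmetric: the off-diagonal entries are annihilated by the ring, and the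
diagonal entries are equal and central. -/
theorem offdiag_left (i j : ι) (hij : i ≠ j) (r : R) (n : ℕ) :
    r * PS (Matrix ι ι R) n i j = 0 := by
  have h := congrFun (congrFun (comm_single j i hij.symm r n) j) j
  rw [Matrix.single_mul_apply_same, Matrix.mul_single_apply_of_ne] at h
  · exact h
  · exact hij.symm

theorem offdiag_right (i j : ι) (hij : i ≠ j) (r : R) (n : ℕ) :
    PS (Matrix ι ι R) n i j * r = 0 := by
  have h := congrFun (congrFun (comm_single j i hij.symm r n) i) i
  rw [Matrix.mul_single_apply_same, Matrix.single_mul_apply_of_ne] at h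
  · exact h.symm
  · exact hij

theorem diag_comm (i j : ι) (hij : i ≠ j) (r : R) (n : ℕ) :
    r * PS (Matrix ι ι R) n j j = PS (Matrix ι ι R) n i i * r := by
  have h := congrFun (congrFun (comm_single i j hij r n) i) j
  rwa [Matrix.single_mul_apply_same, Matrix.mul_single_apply_same] at h

theorem diag_eq (i j : ι) (n : ℕ) : PS (Matrix ι ι R) n i i = PS (Matrix ι ι R) n j j := by
  have h := congrFun (congrFun (PS_submatrix (R := R) (Equiv.swap i j) n) i) i
  simp only [Matrix.submatrix_apply, Equiv.swap_apply_left] at h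
  exact h.symm

end Symmetry

end Q10.PowerSum
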