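import Mathlib
import Pool.Agent.Q10.PowerSum.Main

/-!
# Sums of powers of matrices over finite rings: the vanishing theorem
-/

open Finset Matrix

namespace Q10.PowerSum

universe u v

/-- The quotient of a finite ring by an ideal. -/
theorem exists_quot (R : Type u) [NonUnitalRing R] [Fintype R] (I : TwoSidedIdeal R) :
    ∃ (R' : Type u) (_ : NonUnitalRing R') (_ : Fintype R') (f : R →ₙ+* R'),
      Function.Surjective f ∧ ∀ x, f x = 0 ↔ x ∈ I := by
  classical
  let f : R →ₙ+* I.ringCon.Quotient :=
    { toFun := fun x => (x : I.ringCon.Quotient)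
      map_mul' := fun _ _ => rfl
      map_zero' := rfl
      map_add' := fun _ _ => rfl }
  have hf : Function.Surjective f := Quotient.mk''_surjective
  refine ⟨I.ringCon.Quotient, inferInstance, Fintype.ofSurjective f hf, f, hf, ?_⟩
  intro x
  change (x : I.ringCon.Quotient) = ((0 : R) : I.ringCon.Quotient) ↔ _
  rw [RingCon.eq, TwoSidedIdeal.mem_iff]

theorem simple_case {R : Type u} [inst : NonUnitalRing R] [Fintype R] {ι : Type v} [Fintype ι]
    [DecidableEq ι] (hι : 1 < Fintype.card ι) (e : R) (he : ∀ x, e * x = x) (he' : ∀ x, x * e = x)
    (he0 : e ≠ 0)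
    (hsimple : ∀ I : TwoSidedIdeal R, (∃ x ∈ I, x ≠ 0) → ∀ x, x ∈ I)
    (hR : Fintype.card R % 4 ≠ 2) (n : ℕ) : PS (Matrix ι ι R) n = 0 := by
  classical
  letI : Ring R := { inst with one := e, one_mul := he, mul_one := he' }
  haveI : Nontrivial R := ⟨e, 0, he0⟩
  haveI : IsSimpleRing R := by
    constructor
    haveI : Nontrivial (TwoSidedIdeal R) := inferInstance
    constructor
    intro I
    by_cases h : ∃ x ∈ I, x ≠ 0
    · right
      rw [eq_top_iff]
      intro x _
      exact hsimple I h x
    · left
      rw [eq_bot_iff]
      intro x hx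
      by_contra h1
      apply h
      refine ⟨x, hx, ?_⟩
      intro h2
      apply h1
      rw [h2]
      exact TwoSidedIdeal.zero_mem _
  obtain ⟨r, hr, D, instD, ⟨φ⟩⟩ := IsSimpleRing.exists_ringEquiv_matrix_divisionRing R
  haveI : Finite (Matrix (Fin r) (Fin r) D) := Finite.of_equiv R φ.toEquiv
  haveI : Nonempty (Fin r) := ⟨⟨0, Nat.pos_of_ne_zero hr.ne⟩⟩
  haveI : Finite D := Finite.of_injective (fun d => (Matrix.of fun _ _ => d : Matrix (Fin r) (Fin r) D))
    (by
      intro a b h
      exact congrFun (congrFun h (Classical.arbitrary _)) (Classical.arbitrary _))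
  letI : Fintype D := Fintype.ofFinite D
  letI : Field D := littleWedderburn D
  have hcard : 2 < Fintype.card D ∨ 2 < Fintype.card (ι × Fin r) := by
    by_contra hcon
    push Not at hcon
    obtain ⟨h1, h2⟩ := hcon
    rw [Fintype.card_prod, Fintype.card_fin] at h2
    have hr1 : r = 1 := by
      have : 0 < r := Nat.pos_of_ne_zero hr.ne
      nlinarith
    have hD : Fintype.card D = 2 := le_antisymm h1 Fintype.one_lt_card
    apply hR
    have h3 : Fintype.card R = Fintype.card (Matrix (Fin r) (Fin r) D) :=
      Fintype.card_congr φ.toEquiv
    have h4 : Fintype.card (Matrix (Fin r) (Fin r) D) = (Fintype.card D ^ r) ^ r := by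
      change Fintype.card (Fin r → Fin r → D) = _
      rw [Fintype.card_fun, Fintype.card_fun, Fintype.card_fin]
    rw [h3, h4, hD, hr1]
    norm_num
  have hcard1 : 1 < Fintype.card (ι × Fin r) := by
    rw [Fintype.card_prod, Fintype.card_fin]
    have : 0 < r := Nat.pos_of_ne_zero hr.ne
    nlinarith
  have h5 : PS (Matrix (ι × Fin r) (ι × Fin r) D) n = 0 := PS_field hcard1 hcard n
  have h6 : PS (Matrix ι ι (Matrix (Fin r) (Fin r) D)) n = 0 := by
    have h7 := map_PS_equiv (Matrix.compRingEquiv ι (Fin r) D) n
    rw [h5] at h7
    exact (map_eq_zero_iff _ (Matrix.compRingEquiv ι (Fin r) D).injective).mp h7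
  have h8 := map_PS_of_bijective (mapM ι (φ : R →ₙ+* Matrix (Fin r) (Fin r) D))
    ⟨mapM_injective φ.injective, mapM_surjective φ.surjective⟩ n
  rw [h6] at h8
  exact mapM_injective (f := (φ : R →ₙ+* Matrix (Fin r) (Fin r) D)) φ.injective
    (h8.trans (_root_.map_zero _).symm)

theorem good_aux {ι : Type v} [Fintype ι] [DecidableEq ι] (hι : 1 < Fintype.card ι) (n : ℕ) :
    ∀ (N : ℕ) (R : Type u) [NonUnitalRing R] [Fintype R], Fintype.card R = N → Good ι R n := by
  classical
  intro N
  induction N using Nat.strong_induction_on with
  | _ N IH =>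
    intro R instR instF hN
    -- quotients by nonzero ideals
    have hq : ∀ I : TwoSidedIdeal R, (∃ x ∈ I, x ≠ 0) →
        ∃ (R' : Type u) (_ : NonUnitalRing R') (_ : Fintype R') (f : R →ₙ+* R'),
          Function.Surjective f ∧ (∀ x, f x = 0 ↔ x ∈ I) ∧ Good ι R' n := by
      rintro I ⟨x, hx, hx0⟩
      obtain ⟨R', i1, i2, f, hf, hfI⟩ := exists_quot R I
      refine ⟨R', i1, i2, f, hf, hfI, ?_⟩
      refine IH (Fintype.card R') ?_ R' rfl
      rw [← hN]
      refine Fintype.card_lt_of_surjective_not_injective f hf ?_
      intro hinj
      apply hx0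
      apply hinj
      rw [_root_.map_zero, hfI]
      exact hx
    refine ⟨?_, ?_⟩
    · intro hR
      obtain ⟨S, hS⟩ : ∃ S, S = PS (Matrix ι ι R) n := ⟨_, rfl⟩
      -- all the entries of `S` are in every nonzero ideal
      have hmem : ∀ I : TwoSidedIdeal R, (∃ x ∈ I, x ≠ 0) → ∀ i j, S i j ∈ I := by
        intro I hI i j
        obtain ⟨R', i1, i2, f, hf, hfI, hG⟩ := hq I hI
        rw [← hfI, hS]
        exact quot_step hf hι hR hG i j
      by_cases hsp : ∃ I : TwoSidedIdeal R, (∃ x ∈ I, x ≠ 0) ∧ ∀ x ∈ I, ∀ y ∈ I, x * y = 0
      · obtain ⟨I, hI, hI2⟩ := hsp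
        obtain ⟨R', i1, i2, f, hf, hfI, hG⟩ := hq I hI
        refine sqZero_step hf hι hR hG ?_
        intro x y hx hy
        exact hI2 x ((hfI x).mp hx) y ((hfI y).mp hy)
      · push Not at hsp
        -- the annihilator of the ring vanishes
        have hann : ∀ x : R, (∀ r, r * x = 0) → (∀ r, x * r = 0) → x = 0 := by
          intro x hx1 hx2
          by_contra hx0
          obtain ⟨a, ha, b, hb, hab⟩ := hsp (TwoSidedIdeal.mk' {y : R | ∀ r, r * y = 0 ∧ y * r = 0}
            (by simp)
            (by
              intro a b ha hb r
              rw [mul_add, add_mul, (ha r).1, (ha r).2, (hb r).1, (hb r).2, add_zero]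
              exact ⟨rfl, rfl⟩)
            (by
              intro a ha r
              rw [mul_neg, neg_mul, (ha r).1, (ha r).2, neg_zero]
              exact ⟨rfl, rfl⟩)
            (by
              intro a b hb r
              rw [(hb a).1, mul_zero, zero_mul]
              exact ⟨rfl, rfl⟩)
            (by
              intro a b ha r
              rw [(ha b).2, mul_zero, zero_mul]
              exact ⟨rfl, rfl⟩))
            ⟨x, by
              rw [TwoSidedIdeal.mem_mk']
              exact fun r => ⟨hx1 r, hx2 r⟩, hx0⟩
          rw [TwoSidedIdeal.mem_mk'] at ha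
          exact hab (ha b).2
        have hoff : ∀ i j, i ≠ j → S i j = 0 := by
          intro i j hij
          apply hann
          · intro r
            rw [hS]
            exact offdiag_left i j hij r n
          · intro r
            rw [hS]
            exact offdiag_right i j hij r n
        obtain ⟨i₀, j₀, hij₀⟩ := Fintype.one_lt_card_iff.mp hι
        obtain ⟨s, hs⟩ : ∃ s, s = S i₀ i₀ := ⟨_, rfl⟩
        have hdiag : ∀ i, S i i = s := by
          intro i
          rw [hs, hS]
          exact diag_eq i i₀ n
        have hcomm : ∀ r, r * s = s * r := by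
          intro r
          have := diag_comm i₀ j₀ hij₀ r n
          rw [← hS, hdiag, hdiag] at this
          exact this
        have hs0 : s = 0 → PS (Matrix ι ι R) n = 0 := by
          intro h
          rw [← hS]
          ext i j
          by_cases hij : i = j
          · rw [hij, hdiag, h, Matrix.zero_apply]
          · rw [hoff i j hij, Matrix.zero_apply]
        apply hs0
        -- a central element of square zero vanishes
        have hsq : s * s = 0 → s = 0 := by
          intro h2
          have h3 : ∀ r, r * s = 0 := by
            intro r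
            by_contra hrs
            obtain ⟨a, ha, b, hb, hab⟩ := hsp (TwoSidedIdeal.mk' {y : R | ∃ r, y = r * s}
              ⟨0, by rw [zero_mul]⟩
              (by
                rintro a b ⟨r, hr⟩ ⟨r', hr'⟩
                exact ⟨r + r', by rw [add_mul, hr, hr']⟩)
              (by
                rintro a ⟨r, hr⟩
                exact ⟨-r, by rw [neg_mul, hr]⟩)
              (by
                rintro a b ⟨r, hr⟩
                exact ⟨a * r, by rw [hr, mul_assoc]⟩)
              (by
                rintro a b ⟨r, hr⟩
                exact ⟨r * b, by rw [hr, mul_assoc, mul_assoc, hcomm]⟩))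
              ⟨r * s, by
                rw [TwoSidedIdeal.mem_mk']
                exact ⟨r, rfl⟩, hrs⟩
            rw [TwoSidedIdeal.mem_mk'] at ha hb
            obtain ⟨r1, rfl⟩ := ha
            obtain ⟨r2, rfl⟩ := hb
            apply hab
            calc r1 * s * (r2 * s) = r1 * (s * r2) * s := by simp only [mul_assoc]
              _ = r1 * (r2 * s) * s := by rw [hcomm r2]
              _ = r1 * r2 * (s * s) := by simp only [mul_assoc]
              _ = 0 := by rw [h2, mul_zero]
          exact hann s h3 (fun r => by rw [← hcomm, h3])
        by_cases hK : ∃ x : R, x ≠ 0 ∧ x * s = 0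
        · obtain ⟨x, hx0, hxs⟩ := hK
          apply hsq
          have := hmem (TwoSidedIdeal.mk' {y : R | y * s = 0} (by simp)
            (by
              intro a b ha hb
              rw [Set.mem_setOf_eq] at ha hb ⊢
              rw [add_mul, ha, hb, add_zero])
            (by
              intro a ha
              rw [Set.mem_setOf_eq] at ha ⊢
              rw [neg_mul, ha, neg_zero])
            (by
              intro a b hb
              rw [Set.mem_setOf_eq] at hb ⊢
              rw [mul_assoc, hb, mul_zero])
            (by
              intro a b ha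
              rw [Set.mem_setOf_eq] at ha ⊢
              rw [mul_assoc, hcomm, ← mul_assoc, ha, zero_mul]))
            ⟨x, by
              rw [TwoSidedIdeal.mem_mk']
              exact hxs, hx0⟩ i₀ i₀
          rw [TwoSidedIdeal.mem_mk', ← hs] at this
          exact this
        · push Not at hK
          by_contra hsne
          have hinj : Function.Injective (fun x : R => x * s) := by
            intro a b h
            by_contra hab
            have h1 : (a - b) * s = 0 := by
              rw [sub_mul]
              exact sub_eq_zero.mpr h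
            exact hK (a - b) (sub_ne_zero.mpr hab) h1
          have hsurj : Function.Surjective (fun x : R => x * s) :=
            Finite.injective_iff_surjective.mp hinj
          obtain ⟨e, he⟩ := hsurj s
          have he : e * s = s := he
          have he1 : ∀ x, x * e = x := by
            intro x
            obtain ⟨y, hy⟩ := hsurj x
            have hy : y * s = x := hy
            rw [← hy, mul_assoc, ← hcomm e, he]
          have he2 : ∀ x, e * x = x := by
            intro x
            obtain ⟨y, hy⟩ := hsurj x
            have hy : y * s = x := hy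
            rw [← hy, hcomm y, ← mul_assoc, he]
          have he0 : e ≠ 0 := by
            intro h
            apply hsne
            rw [← he, h, zero_mul]
          apply hsne
          rw [hs, hS, simple_case hι e he2 he1 he0 ?_ hR n, Matrix.zero_apply]
          intro I hI x
          have h1 := hmem I hI i₀ i₀
          rw [← hs] at h1
          obtain ⟨y, hy⟩ := hsurj x
          have hy : y * s = x := hy
          rw [← hy]
          exact I.mul_mem_left _ _ h1
    · intro hR
      have hdvd : 2 ∣ Fintype.card R := by omega
      obtain ⟨e, he⟩ := exists_prime_addOrderOf_dvd_card 2 hdvd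
      have he0 : e ≠ 0 := by
        intro h
        rw [h, addOrderOf_zero] at he
        omega
      have he2 : e + e = 0 := by
        rw [← two_nsmul, ← he]
        exact addOrderOf_nsmul_eq_zero e
      obtain ⟨R', i1, i2, f, hf, hfI, hG⟩ := hq (TwoSidedIdeal.mk' {y : R | y + y = 0} (by simp)
        (by
          intro a b ha hb
          rw [Set.mem_setOf_eq] at ha hb ⊢
          rw [add_add_add_comm, ha, hb, add_zero])
        (by
          intro a ha
          rw [Set.mem_setOf_eq] at ha ⊢
          rw [← neg_add, ha, neg_zero])
        (by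
          intro a b hb
          rw [Set.mem_setOf_eq] at hb ⊢
          rw [← mul_add, hb, mul_zero])
        (by
          intro a b ha
          rw [Set.mem_setOf_eq] at ha ⊢
          rw [← add_mul, ha, zero_mul]))
        ⟨e, by
          rw [TwoSidedIdeal.mem_mk']
          exact he2, he0⟩
      simp only [TwoSidedIdeal.mem_mk', Set.mem_setOf_eq] at hfI
      have h2 := card_eq_mul (f : R →+ R') hf
      have h3 : 2 ∣ #{g : R | (f : R →+ R') g = 0} := by
        have h4 := card_ker_nsmul (f : R →+ R') (x := e) ((hfI e).mpr he2)
        have h5 := addOrderOf_dvd_of_nsmul_eq_zero h4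
        rwa [he] at h5
      obtain ⟨t, ht⟩ := h3
      have hR' : Fintype.card R' % 2 = 1 := by
        rw [ht] at h2
        have h6 : Fintype.card R = 2 * (t * Fintype.card R') := by rw [h2, mul_assoc]
        have h7 : (t * Fintype.card R') % 2 = 1 := by omega
        have h8 := Nat.odd_iff.mpr h7
        exact Nat.odd_iff.mp (Nat.odd_mul.mp h8).2
      have h9 : PS (Matrix ι ι R') n = 0 := hG.1 (by omega)
      have h10 := map_PS (mapM ι f) (mapM_surjective hf) n
      rw [h9, smul_zero] at h10
      ext i j
      rw [two_nsmul, Matrix.add_apply, Matrix.zero_apply, ← hfI]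
      exact congrFun (congrFun h10 i) j

theorem good {ι : Type v} [Fintype ι] [DecidableEq ι] (hι : 1 < Fintype.card ι) (n : ℕ)
    (R : Type u) [NonUnitalRing R] [Fintype R] : Good ι R n :=
  good_aux hι n _ R rfl

end Q10.PowerSum
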