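import Mathlib
import Pool.Agent.Q10.PowerSum.Zero

/-!
# Sums of powers of matrices over finite rings: the exceptional value
-/

open Finset Matrix

namespace Q10.PowerSum

universe u v

/-! ### The two by two matrices over the field with two elements -/

/-- The sum of the `k`-th powers of the two by two matrices over the field with two elements. -/
def T2 (k : ℕ) : Matrix (Fin 2) (Fin 2) (ZMod 2) := ∑ A : Matrix (Fin 2) (Fin 2) (ZMod 2), A ^ k

theorem T2_one : T2 1 = 0 := by decide +kernel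
theorem T2_two : T2 2 = 0 := by decide +kernel
theorem T2_three : T2 3 = 0 := by decide +kernel
theorem T2_four : T2 4 = 0 := by decide +kernel
theorem T2_five : T2 5 = 1 := by decide +kernel
theorem T2_six : T2 6 = 1 := by decide +kernel
theorem T2_seven : T2 7 = 1 := by decide +kernel

theorem pow_eight : ∀ A : Matrix (Fin 2) (Fin 2) (ZMod 2), A ^ 8 = A ^ 2 := by decide +kernel

theorem T2_add_six (k : ℕ) (hk : 2 ≤ k) : T2 (k + 6) = T2 k := by
  unfold T2
  refine Finset.sum_congr rfl fun A _ => ?_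
  obtain ⟨m, rfl⟩ := Nat.exists_eq_add_of_le hk
  rw [show 2 + m + 6 = 8 + m by omega, pow_add, pow_eight, ← pow_add]

theorem T2_eq (k : ℕ) (hk : 1 ≤ k) :
    T2 k = if 1 < k ∧ (k % 6 = 5 ∨ k % 6 = 0 ∨ k % 6 = 1) then 1 else 0 := by
  induction k using Nat.strong_induction_on with
  | _ k ih =>
    by_cases h8 : 8 ≤ k
    · obtain ⟨m, rfl⟩ := Nat.exists_eq_add_of_le h8
      rw [show 8 + m = (2 + m) + 6 by omega, T2_add_six _ (by omega), ih (2 + m) (by omega) (by omega)]
      congr 1
      rw [Nat.add_mod_right]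
      apply propext
      constructor
      · rintro ⟨h1, h2⟩
        exact ⟨by omega, h2⟩
      · rintro ⟨h1, h2⟩
        exact ⟨by omega, h2⟩
    · have : k = 1 ∨ k = 2 ∨ k = 3 ∨ k = 4 ∨ k = 5 ∨ k = 6 ∨ k = 7 := by omega
      rcases this with rfl | rfl | rfl | rfl | rfl | rfl | rfl
      · rw [T2_one]; simp
      · rw [T2_two]; simp
      · rw [T2_three]; simp
      · rw [T2_four]; simp
      · rw [T2_five]; simp
      · rw [T2_six]; simp
      · rw [T2_seven]; simp

theorem PS_two (n : ℕ) : PS (Matrix (Fin 2) (Fin 2) (ZMod 2)) n =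
    if 1 < n + 1 ∧ ((n + 1) % 6 = 5 ∨ (n + 1) % 6 = 0 ∨ (n + 1) % 6 = 1) then 1 else 0 := by
  rw [← T2_eq (n + 1) (by omega), PS, T2]
  simp only [power_eq_pow]

section Exact

variable {R : Type u} [NonUnitalRing R] [Fintype R]

/-- In a ring of order `2m` with `m` odd, there is a unique nonzero element `e` with `2e=0`. -/
theorem unique_two_torsion (hR : Fintype.card R % 4 = 2) {e x : R} (he0 : e ≠ 0) (he : e + e = 0)
    (hx0 : x ≠ 0) (hx : x + x = 0) : x = e := by
  classical
  have hord : addOrderOf e = 2 := addOrderOf_eq_prime (by rw [two_nsmul, he]) he0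
  have h1 := AddSubgroup.card_eq_card_quotient_mul_card_addSubgroup (AddSubgroup.zmultiples e)
  rw [Nat.card_zmultiples, hord, Nat.card_eq_fintype_card] at h1
  have h2 : Nat.card (R ⧸ AddSubgroup.zmultiples e) • (x : R ⧸ AddSubgroup.zmultiples e) = 0 := by
    rw [Nat.card_eq_fintype_card]
    exact card_nsmul_eq_zero
  obtain ⟨c, hc⟩ : ∃ c, c = Nat.card (R ⧸ AddSubgroup.zmultiples e) := ⟨_, rfl⟩
  rw [← hc] at h1 h2
  obtain ⟨a, ha⟩ : ∃ a, c = 2 * a + 1 := ⟨c / 2, by omega⟩
  have h3 : (x : R ⧸ AddSubgroup.zmultiples e) = 0 := by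
    have h4 : (2 : ℕ) • (x : R ⧸ AddSubgroup.zmultiples e) = 0 := by
      rw [two_nsmul, ← QuotientAddGroup.mk_add, hx, QuotientAddGroup.mk_zero]
    rw [ha, add_smul, mul_comm, mul_smul, h4, smul_zero, zero_add, one_smul] at h2
    exact h2
  rw [QuotientAddGroup.eq_zero_iff, AddSubgroup.mem_zmultiples_iff] at h3
  obtain ⟨k, hk⟩ := h3
  rcases Int.even_or_odd' k with ⟨b, hb | hb⟩
  · exfalso
    apply hx0
    rw [← hk, hb, mul_comm, mul_smul, two_smul, he, smul_zero]
  · rw [← hk, hb, add_smul, mul_comm, mul_smul, two_smul, he, smul_zero, zero_add, one_smul]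

theorem exists_two_torsion (hR : Fintype.card R % 4 = 2) : ∃ e : R, e ≠ 0 ∧ e + e = 0 := by
  obtain ⟨e, he⟩ := exists_prime_addOrderOf_dvd_card (G := R) 2 (by omega)
  refine ⟨e, ?_, ?_⟩
  · intro h
    rw [h, addOrderOf_zero] at he
    omega
  · rw [← two_nsmul, ← he]
    exact addOrderOf_nsmul_eq_zero e

/-- Multiplication by an integer `m` with `m² x= m x` is a ring homomorphism. -/
def mulHom (m : ℕ) (hm : ∀ x : R, (m * m) • x = m • x) : R →ₙ+* R where
  toFun x := m • x
  map_mul' x y := by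
    rw [smul_mul_smul_comm, hm]
  map_zero' := smul_zero m
  map_add' x y := smul_add m x y

theorem half_spec (hR : Fintype.card R % 4 = 2) : ∃ m : ℕ, Fintype.card R = 2 * m ∧ m % 2 = 1 ∧
    (∀ x : R, (m * m) • x = m • x) ∧ (∀ x : R, x + x = 0 → m • x = x) ∧
    ∀ x : R, m • x + m • x = 0 := by
  obtain ⟨m, hm⟩ : ∃ m, Fintype.card R = 2 * m := ⟨Fintype.card R / 2, by omega⟩
  have hm2 : m % 2 = 1 := by omega
  obtain ⟨a, ha⟩ : ∃ a, m = 2 * a + 1 := ⟨m / 2, by omega⟩
  have hkill : ∀ x : R, (2 * m) • x = 0 := by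
    intro x
    rw [← hm]
    exact card_nsmul_eq_zero
  refine ⟨m, hm, hm2, ?_, ?_, ?_⟩
  · intro x
    have h1 : m * m = a * (2 * m) + m := by
      nth_rewrite 1 [ha]
      ring
    rw [h1, add_smul, mul_smul, hkill, smul_zero, zero_add]
  · intro x hx
    rw [ha, add_smul, mul_comm, mul_smul, two_smul, hx, smul_zero, zero_add, one_smul]
  · intro x
    rw [← add_smul, ← two_mul, hkill]

theorem PS_eq_mapM (hR : Fintype.card R % 4 = 2) {ι : Type v} [Fintype ι] [DecidableEq ι]
    (hι : 1 < Fintype.card ι) (n : ℕ) (π : R →ₙ+* R) (hπ : ∀ x, x + x = 0 → π x = x) :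
    PS (Matrix ι ι R) n = mapM ι π (PS (Matrix ι ι R) n) := by
  have h1 := (good hι n R).2 hR
  ext i j
  rw [mapM_apply, hπ]
  have := congrFun (congrFun h1 i) j
  rwa [two_nsmul] at this

theorem exact_zero (hR : Fintype.card R % 4 = 2) {ι : Type v} [Fintype ι] [DecidableEq ι]
    (hι : 1 < Fintype.card ι) {e : R} (he0 : e ≠ 0) (he : e + e = 0) (hee : e * e = 0) (n : ℕ) :
    PS (Matrix ι ι R) n = 0 := by
  obtain ⟨m, hm, hm2, hmm, hmx, hm0⟩ := half_spec hR
  cases n with
  | zero => exact sum_matrix hι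
  | succ n =>
    rw [PS_eq_mapM hR hι (n + 1) (mulHom m hmm) hmx, PS, map_sum]
    refine Finset.sum_eq_zero fun A _ => ?_
    rw [power, map_mul]
    ext i j
    rw [Matrix.mul_apply, Matrix.zero_apply]
    refine Finset.sum_eq_zero fun k _ => ?_
    have hval : ∀ x : R, m • x = 0 ∨ m • x = e := by
      intro x
      by_cases h : m • x = 0
      · exact Or.inl h
      · exact Or.inr (unique_two_torsion hR he0 he h (hm0 x))
    rw [mapM_apply, mapM_apply]
    change m • _ * m • _ = (0 : R)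
    rcases hval (power A n i k) with h1 | h1
    · rw [h1, zero_mul]
    · rcases hval (A k j) with h2 | h2
      · rw [h2, mul_zero]
      · rw [h1, h2, hee]

theorem exact_idem (hR : Fintype.card R % 4 = 2) {ι : Type v} [Fintype ι] [DecidableEq ι]
    (hι : 1 < Fintype.card ι) {e : R} (he0 : e ≠ 0) (he : e + e = 0) (hee : e * e = e) (n : ℕ) :
    ∃ j : ZMod 2 →ₙ+* R, j 1 = e ∧
      PS (Matrix ι ι R) n = mapM ι j (PS (Matrix ι ι (ZMod 2)) n) := by
  classical
  obtain ⟨m, hm, hm2, hmm, hmx, hm0⟩ := half_spec hR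
  have hval : ∀ x : R, m • x = 0 ∨ m • x = e := by
    intro x
    by_cases h : m • x = 0
    · exact Or.inl h
    · exact Or.inr (unique_two_torsion hR he0 he h (hm0 x))
  have h2 : (1 : ZMod 2) + 1 = 0 := by decide
  have hcase : ∀ a : ZMod 2, a = 0 ∨ a = 1 := by decide
  let ρ : R →ₙ+* ZMod 2 :=
    { toFun := fun x => if m • x = 0 then 0 else 1
      map_mul' := by
        intro x y
        have h1 : m • (x * y) = m • x * m • y := by
          rw [smul_mul_smul_comm, hmm]
        rw [h1]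
        rcases hval x with h3 | h3 <;> rcases hval y with h4 | h4 <;>
          simp [h3, h4, hee, he0]
      map_zero' := by simp
      map_add' := by
        intro x y
        rw [smul_add]
        rcases hval x with h3 | h3 <;> rcases hval y with h4 | h4 <;>
          simp [h3, h4, he, he0, h2] }
  let j : ZMod 2 →ₙ+* R :=
    { toFun := fun a => if a = 0 then 0 else e
      map_mul' := by
        intro a b
        rcases hcase a with rfl | rfl <;> rcases hcase b with rfl | rfl <;> simp [hee]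
      map_zero' := by simp
      map_add' := by
        intro a b
        rcases hcase a with rfl | rfl <;> rcases hcase b with rfl | rfl <;> simp [he, h2] }
  have hj : ∀ a, j a = if a = 0 then 0 else e := fun _ => rfl
  have hρ : ∀ x, ρ x = if m • x = 0 then 0 else 1 := fun _ => rfl
  have hjρ : ∀ x, j (ρ x) = m • x := by
    intro x
    rw [hj, hρ]
    rcases hval x with h3 | h3 <;> simp [h3, he0]
  have hρs : Function.Surjective ρ := by
    intro a
    fin_cases a
    · exact ⟨0, _root_.map_zero ρ⟩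
    · refine ⟨e, ?_⟩
      rw [hρ, hmx e he, if_neg he0]
      rfl
  refine ⟨j, ?_, ?_⟩
  · rw [hj, if_neg one_ne_zero]
  · have h5 := map_PS (mapM ι ρ) (mapM_surjective hρs) n
    rw [card_ker_mapM] at h5
    have h6 := card_eq_mul (ρ : R →+ ZMod 2) hρs
    obtain ⟨c, hc⟩ : ∃ c, c = #{x : R | ρ x = 0} := ⟨_, rfl⟩
    have h7 : c = m := by
      have h8 : Fintype.card R = c * 2 := by
        rw [hc]
        simpa using h6
      omega
    rw [← hc, h7] at h5
    have hodd : Odd ((m ^ Fintype.card ι) ^ Fintype.card ι) :=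
      (Nat.odd_iff.mpr hm2).pow.pow
    obtain ⟨b, hb⟩ := hodd
    have h9 : (2 : ℕ) • PS (Matrix ι ι (ZMod 2)) n = 0 := by
      ext i k
      rw [Matrix.smul_apply, Matrix.zero_apply, two_nsmul]
      exact CharTwo.add_self_eq_zero _
    rw [hb, add_smul, mul_comm, mul_smul, h9, smul_zero, zero_add, one_smul] at h5
    rw [← h5]
    have h10 := PS_eq_mapM hR hι n (mulHom m hmm) hmx
    ext i k
    have h11 := congrFun (congrFun h10 i) k
    rw [h11, mapM_apply, mapM_apply, mapM_apply, hjρ]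
    rfl

end Exact

/-- In the exceptional case: value for `d = 2`. -/
theorem exact_two {R : Type u} [NonUnitalRing R] [Fintype R] (hR : Fintype.card R % 4 = 2) {e : R}
    (he0 : e ≠ 0) (he : e + e = 0) (hee : e * e = e) (n : ℕ) :
    PS (Matrix (Fin 2) (Fin 2) R) n =
      if 1 < n + 1 ∧ ((n + 1) % 6 = 5 ∨ (n + 1) % 6 = 0 ∨ (n + 1) % 6 = 1) then
        Matrix.diagonal (fun _ => e) else 0 := by
  obtain ⟨j, hj, h⟩ := exact_idem hR (ι := Fin 2) (by simp) he0 he hee n
  rw [h, PS_two]
  split_ifs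
  · ext a b
    rw [mapM_apply]
    by_cases hab : a = b
    · rw [hab, Matrix.one_apply_eq, Matrix.diagonal_apply_eq, hj]
    · rw [Matrix.one_apply_ne hab, Matrix.diagonal_apply_ne _ hab, _root_.map_zero]
  · rw [_root_.map_zero]

/-- The idempotent case with `d ≥ 3`. -/
theorem exact_three {R : Type u} [NonUnitalRing R] [Fintype R] (hR : Fintype.card R % 4 = 2) {e : R}
    (he0 : e ≠ 0) (he : e + e = 0) (hee : e * e = e) {d : ℕ} (hd : 2 < d) (n : ℕ) :
    PS (Matrix (Fin d) (Fin d) R) n = 0 := by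
  obtain ⟨j, hj, h⟩ := exact_idem hR (ι := Fin d) (by rw [Fintype.card_fin]; omega) he0 he hee n
  rw [h, PS_field (by rw [Fintype.card_fin]; omega) (Or.inr (by rw [Fintype.card_fin]; omega)),
    _root_.map_zero]

end Q10.PowerSum
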